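import Pool.Agent.Helper65.CS.Goals2

/-!
# Search for satisfying assignments, packet CS-PR1: parameters, part 1
-/

namespace Pool.Agent.Helper16.CS

open Pool.Agent.Helper65.CS Pool.Agent.Helper78.DT Pool.Agent.Helper81.CC
  Pool.Agent.Helper51.ZP

theorem sq_le_two_pow : ∀ n : ℕ, 6 ≤ n → (n + 1) ^ 2 ≤ 2 ^ n := by
  intro n hn
  induction n, hn using Nat.le_induction with
  | base => norm_num
  | succ n hn ih =>
    have h1 : (n + 1 + 1) ^ 2 ≤ 2 * (n + 1) ^ 2 := by nlinarith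
    calc (n + 1 + 1) ^ 2 ≤ 2 * (n + 1) ^ 2 := h1
      _ ≤ 2 * 2 ^ n := Nat.mul_le_mul_left _ ih
      _ = 2 ^ (n + 1) := by ring

theorem expo (c L : ℕ) (hL : 2 ^ (2 * (c + 6) + 8) ≤ L) :
    bb L * (c + 5 + uu L) ≤ 18 * L := by
  unfold bb uu
  have hL0 : L ≠ 0 := by
    have := Nat.one_le_two_pow (n := 2 * (c + 6) + 8)
    omega
  set l := Nat.log 2 L with hl
  have hl8 : 2 * (c + 6) + 8 ≤ l := Nat.le_log_of_pow_le (by norm_num) hL
  have hpl : 2 ^ l ≤ L := Nat.pow_log_le_self 2 hL0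
  have hsq : (l + 1) ^ 2 ≤ L := le_trans (sq_le_two_pow l (by omega)) hpl
  have hd : 4 * L / l * l ≤ 4 * L := Nat.div_mul_le_self _ _
  set d := 4 * L / l with hdd
  have h1 : 2 * (l + 1) * (c + 6) ≤ L := by nlinarith
  have h2 : 8 * d ≤ 4 * L := by nlinarith
  have h3 : 2 * (l + 1) * (c + 5 + (d + 1)) = 2 * (l + 1) * (c + 6) + 2 * (d * l) + 2 * d := by
    ring
  rw [h3]
  omega

theorem pr1 : Pr1Stmt := by
  intro c
  refine ⟨2 ^ (2 * (c + 6) + 8), fun N hN => ?_⟩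
  have hbig : 3 ≤ lg N := by
    have h1 : 2 ^ 2 ≤ 2 ^ (2 * (c + 6) + 8) := Nat.pow_le_pow_right (by norm_num) (by omega)
    omega
  have hN0 : N ≠ 0 := by
    rintro rfl
    simp [lg] at hbig
  have h2L : 2 ^ lg N ≤ 4 * N + 4 := by
    have h1 : 2 ^ Nat.log 2 N ≤ N := Nat.pow_log_le_self 2 hN0
    have h2 : lg N = Nat.log 2 N + 2 := rfl
    rw [h2, pow_add]
    omega
  have hM1 : 1 ≤ (4 * N + 4) ^ 18 := Nat.one_le_pow _ _ (by omega)
  refine ⟨?_, ?_⟩
  · unfold MM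
    calc 2 ≤ 4 * N + 4 := by omega
      _ = (4 * N + 4) ^ 1 := (pow_one _).symm
      _ ≤ (4 * N + 4) ^ 19 := Nat.pow_le_pow_right (by omega) (by norm_num)
  · have he := expo c (lg N) hN
    have hMpos : (0 : ℝ) < (MM N : ℝ) := by
      have : 0 < MM N := by unfold MM; positivity
      exact_mod_cast this
    rw [one_div, inv_pow, ← pow_mul, div_le_iff₀ hMpos, inv_mul_eq_div,
      le_div_iff₀ (by positivity)]
    have key : N * 2 ^ (bb (lg N) * (c + 5 + uu (lg N))) ≤ MM N := by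
      calc N * 2 ^ (bb (lg N) * (c + 5 + uu (lg N)))
          ≤ (4 * N + 4) * 2 ^ (18 * lg N) :=
            Nat.mul_le_mul (by omega) (Nat.pow_le_pow_right (by norm_num) he)
        _ = (4 * N + 4) * (2 ^ lg N) ^ 18 := by rw [mul_comm 18, pow_mul]
        _ ≤ (4 * N + 4) * (4 * N + 4) ^ 18 :=
            Nat.mul_le_mul_left _ (Nat.pow_le_pow_left h2L 18)
        _ = MM N := by unfold MM; ring
    exact_mod_cast key

end Pool.Agent.Helper16.CS
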